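import Pool.Agent.V1127.Cm.Phase
import Pool.Agent.V1127.Cm.Cov

/-!
# MP_cb9bff_gt, Q2: cone monotone homotopy equivalences

Q2 asks for the diffeomorphism classification of the smooth simply connected closed 4-manifolds
with a given intersection form. Two such manifolds are homotopy equivalent (Whitehead, Milnor) and
homeomorphic (Freedman); the question is when they are diffeomorphic. The theorem (for `n = 4`; it
holds in all dimensions and without the assumption of simple connectivity): if some homotopy
equivalence `f : M → N` of closed smooth manifolds is cone monotone, then `M` and `N` are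
diffeomorphic, and `f` can be approximated by diffeomorphisms homotopic to it.

Here `f` is cone monotone at `x` if in some smooth coordinates around `x` and `f x`, for every
direction `v`, the increments of `f` in the directions near `v` lie in a proper convex cone, on all
scales. The map `f` need not be differentiable anywhere, and need not be Lipschitz.

The method: mollification in boxes, one after the other; a mollification of small variable radius
preserves the strict monotonicity of all linear functionals in all directions at once, hence the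
cones, in all the other boxes. The limit map is a local diffeomorphism homotopic to `f`; it is
bijective by the homotopy lifting property of coverings.
-/

set_option autoImplicit false

open Set Filter Topology Metric Function
open scoped Manifold ContDiff

noncomputable section

namespace Pool.Agent.Results.MP_cb9bff_gt.ConeMonotoneEquivalences

/-- `f` is a local diffeomorphism at `x` -/
def LocDiff (n : ℕ) {M N : Type} [TopologicalSpace M]
    [ChartedSpace (EuclideanSpace ℝ (Fin n)) M] [TopologicalSpace N]
    [ChartedSpace (EuclideanSpace ℝ (Fin n)) N] (f : M → N) (x : M) : Prop :=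
  IsLocalDiffeomorphAt (𝓡 n) (𝓡 n) ∞ f x

/-- `f : M → N` is cone monotone at `x`: for a smooth parametrization `A` around `x` and smooth
coordinates `B` around `f x`, for every direction `v` the increments of `B ∘ f ∘ A` in the
directions near `v` lie in a cone `r ‖z‖ < ℓ z`. -/
def ConeMonotone (n : ℕ) {M N : Type} [TopologicalSpace M]
    [ChartedSpace (EuclideanSpace ℝ (Fin n)) M] [TopologicalSpace N]
    [ChartedSpace (EuclideanSpace ℝ (Fin n)) N] (f : M → N) (x : M) : Prop :=
  ∃ (A : EuclideanSpace ℝ (Fin n) → M) (B : N → EuclideanSpace ℝ (Fin n)),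
    A 0 = x ∧ LocDiff n A 0 ∧ LocDiff n B (f x) ∧
    ∀ v : EuclideanSpace ℝ (Fin n), v ≠ 0 →
      ∃ (r : ℝ) (ℓ : EuclideanSpace ℝ (Fin n) →L[ℝ] ℝ), 0 < r ∧
        ∀ p q : EuclideanSpace ℝ (Fin n), ‖p‖ ≤ r → ‖q‖ ≤ r → ∀ t : ℝ, 0 < t →
          ‖q - p - t • v‖ ≤ r * t →
            r * ‖B (f (A q)) - B (f (A p))‖ < ℓ (B (f (A q)) - B (f (A p)))

/-- `f` has a homotopy inverse -/
def IsHomotopyEquivalence {M N : Type} [TopologicalSpace M] [TopologicalSpace N]
    (f : C(M, N)) : Prop :=
  ∃ g : C(N, M), (f.comp g).Homotopic (ContinuousMap.id N) ∧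
    (g.comp f).Homotopic (ContinuousMap.id M)

/-- `f` is homotopic to a diffeomorphism through maps whose graphs lie in `O` -/
def HomotopicToDiffeo (n : ℕ) {M N : Type} [TopologicalSpace M]
    [ChartedSpace (EuclideanSpace ℝ (Fin n)) M] [TopologicalSpace N]
    [ChartedSpace (EuclideanSpace ℝ (Fin n)) N] (f : C(M, N)) (O : Set (M × N)) : Prop :=
  ∃ Φ : Diffeomorph (𝓡 n) (𝓡 n) M N ∞,
    f.HomotopicWith ⟨Φ, Φ.continuous⟩ (fun g => ∀ x, (x, g x) ∈ O)

/-- A homotopy equivalence of closed smooth manifolds which is at every point a local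
diffeomorphism or cone monotone is homotopic to a diffeomorphism, through maps with graph in a
given neighbourhood `O` of the graph of `f`. -/
theorem result (n : ℕ) (M N : Type) [TopologicalSpace M] [T2Space M] [CompactSpace M]
    [ChartedSpace (EuclideanSpace ℝ (Fin n)) M] [IsManifold (𝓡 n) ∞ M]
    [TopologicalSpace N] [T2Space N] [ChartedSpace (EuclideanSpace ℝ (Fin n)) N]
    [IsManifold (𝓡 n) ∞ N] (f : C(M, N)) (he : IsHomotopyEquivalence f)
    (hf : ∀ x, LocDiff n f x ∨ ConeMonotone n f x)
    (O : Set (M × N)) (hO : IsOpen O) (hfO : ∀ x, (x, f x) ∈ O) :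
    HomotopicToDiffeo n f O := by
  obtain ⟨f', h1, h2⟩ := Pool.Agent.V1127.Cm.stCAll n M N f O (fun x => by
    rcases hf x with h | ⟨A, B, hA, hA', hB, h⟩
    · exact Or.inl h
    · exact Or.inr ⟨B, hB, A, hA, hA', h⟩) hO hfO
  have hl : IsLocalDiffeomorph (𝓡 n) (𝓡 n) ∞ f' := h2
  obtain ⟨H⟩ := h1
  have hH : f.Homotopic f' := ⟨H.toHomotopy⟩
  obtain ⟨g, g1, g2⟩ := he
  have hb : Bijective f' := by
    refine Pool.Agent.V1127.Cm.bijective_of_homotopy f' hl.isLocalHomeomorph g ?_ ?_
    · exact (ContinuousMap.Homotopic.comp hH.symm (ContinuousMap.Homotopic.refl g)).trans g1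
    · exact (ContinuousMap.Homotopic.comp (ContinuousMap.Homotopic.refl g) hH.symm).trans g2
  exact ⟨hl.diffeomorphOfBijective hb, ⟨H⟩⟩

end Pool.Agent.Results.MP_cb9bff_gt.ConeMonotoneEquivalences
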