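import Pool.Agent.V1127.Co.All

/-!
# MP_cb9bff_gt, Q2: smooth homeomorphisms of corank at most one

Q2 asks for the diffeomorphism classification of the smooth 4-manifolds with a given intersection
form. By Freedman two such manifolds are homeomorphic, so the question is which homeomorphic smooth
4-manifolds are diffeomorphic. The theorem (`m = 3`; it holds in all dimensions `m + 1`): if there
is a homeomorphism `f : M → N` which is smooth as a map and whose derivative has rank at least `m`
everywhere, then `M` and `N` are diffeomorphic, and `f` can be approximated by diffeomorphisms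
homotopic to it. Nothing is assumed on the inverse of `f`, which need not be differentiable, nor on
the set of critical points, apart from compactness (automatic for closed `M`); the diffeomorphism
equals `f` outside any given neighbourhood of that set.

The method: near a critical point, `m` linear coordinates of `f` in a chart are part of a smooth
chart, and along their fibres `f` is strictly monotone; the remaining coordinate is mollified in
boxes, one after the other, with control of the `C^1` distance in all other boxes, and the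
homotopy is given by the segments in the charts.
-/

set_option autoImplicit false

open Set Filter Topology Function
open scoped Manifold ContDiff

noncomputable section

namespace Pool.Agent.Results.MP_cb9bff_gt.CorankOneHomeomorphisms

/-- the linear map `L` has rank at least `m`: composed with some linear map it is onto `ℝ^m` -/
def RankAtLeast (m : ℕ) {n : ℕ}
    (L : EuclideanSpace ℝ (Fin n) →L[ℝ] EuclideanSpace ℝ (Fin n)) : Prop :=
  ∃ P : EuclideanSpace ℝ (Fin n) →L[ℝ] EuclideanSpace ℝ (Fin m), Surjective (fun v => P (L v))

theorem RankAtLeast.le {m n : ℕ}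
    {L : EuclideanSpace ℝ (Fin n) →L[ℝ] EuclideanSpace ℝ (Fin n)} (h : RankAtLeast m L) :
    m ≤ Module.finrank ℝ (LinearMap.range L.toLinearMap) := by
  obtain ⟨P, hP⟩ := h
  have h4 : Surjective (P.toLinearMap ∘ₗ (LinearMap.range L.toLinearMap).subtype) := by
    intro w
    obtain ⟨v, hv⟩ := hP w
    exact ⟨⟨_, LinearMap.mem_range_self _ v⟩, hv⟩
  have h5 := LinearMap.finrank_le_finrank_of_surjective h4
  rwa [finrank_euclideanSpace, Fintype.card_fin] at h5

/-- the derivative of `f` at `x` has rank at least `m` -/
def RankAt (m n : ℕ) {M N : Type} [TopologicalSpace M] [ChartedSpace (EuclideanSpace ℝ (Fin n)) M]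
    [TopologicalSpace N] [ChartedSpace (EuclideanSpace ℝ (Fin n)) N] (f : M → N) (x : M) : Prop :=
  RankAtLeast m (mfderiv (𝓡 n) (𝓡 n) f x)

/-- `f` is a local diffeomorphism at `x` -/
def LocDiff (n : ℕ) {M N : Type} [TopologicalSpace M]
    [ChartedSpace (EuclideanSpace ℝ (Fin n)) M] [TopologicalSpace N]
    [ChartedSpace (EuclideanSpace ℝ (Fin n)) N] (f : M → N) (x : M) : Prop :=
  IsLocalDiffeomorphAt (𝓡 n) (𝓡 n) ∞ f x

/-- `f` is homotopic to a diffeomorphism through maps whose graphs lie in `O` and which are equal
to `f` outside `W` -/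
def HomotopicToDiffeo (n : ℕ) {M N : Type} [TopologicalSpace M]
    [ChartedSpace (EuclideanSpace ℝ (Fin n)) M] [TopologicalSpace N]
    [ChartedSpace (EuclideanSpace ℝ (Fin n)) N] (f : C(M, N)) (O : Set (M × N)) (W : Set M) :
    Prop :=
  ∃ Φ : Diffeomorph (𝓡 n) (𝓡 n) M N ∞, f.HomotopicWith ⟨Φ, Φ.continuous⟩
    (fun g => ∀ x, (x, g x) ∈ O ∧ (x ∉ W → g x = f x))

/-- A smooth bijection `f : M → N` whose derivative has rank at least `m` on the compact set `S`
and which is a local diffeomorphism outside `S` is homotopic to a diffeomorphism, by a homotopy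
with graphs in a given neighbourhood `O` of the graph of `f` and constant outside a given
neighbourhood `W` of `S`. -/
theorem result (m : ℕ) (M N : Type) [TopologicalSpace M] [T2Space M]
    [ChartedSpace (EuclideanSpace ℝ (Fin (m + 1))) M] [IsManifold (𝓡 (m + 1)) ∞ M]
    [TopologicalSpace N] [ChartedSpace (EuclideanSpace ℝ (Fin (m + 1))) N]
    [IsManifold (𝓡 (m + 1)) ∞ N] (f : C(M, N))
    (hf : ContMDiff (𝓡 (m + 1)) (𝓡 (m + 1)) ∞ f) (hb : Bijective f)
    (S : Set M) (hS : IsCompact S) (hr : ∀ x ∈ S, RankAt m (m + 1) f x)
    (hS' : ∀ x ∉ S, LocDiff (m + 1) f x) (W : Set M) (hW : IsOpen W) (hSW : S ⊆ W)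
    (O : Set (M × N)) (hO : IsOpen O) (hfO : ∀ x, (x, f x) ∈ O) :
    HomotopicToDiffeo (m + 1) f O W := by
  obtain ⟨f', -, h2, h3, -, h5⟩ := Pool.Agent.V1127.Co.removal f hf hb S hS hS'
    (fun x hx => (hr x hx).le) W hW hSW O hO hfO
  have hl : IsLocalDiffeomorph (𝓡 (m + 1)) (𝓡 (m + 1)) ∞ f' := h3
  exact ⟨hl.diffeomorphOfBijective h2, h5⟩

end Pool.Agent.Results.MP_cb9bff_gt.CorankOneHomeomorphisms
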