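import Pool.Agent.V1127.Iso.Off
import Pool.Agent.V1127.Iso.Dom

/-!
# MP_cb9bff_gt, Q2: homeomorphisms of corank at most one off a closed set

Q2 asks for the diffeomorphism classification of the smooth 4-manifolds with a given intersection
form. By Freedman two such manifolds are homeomorphic, so the question is how far a homeomorphism
`f : M → N` can be improved. The theorem (`m = 3`; it holds in all dimensions `m + 1`, and for
noncompact manifolds): let `S` be any closed subset of `M` such that `f` is smooth of corank at
most one at all points off `S`. (Nothing is assumed on `f` near `S`, nor on the inverse of `f`, nor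
on the set of critical points of `f`, which may accumulate at `S`.) Then `f` is isotopic, relative
to `S`, to a homeomorphism which is a local diffeomorphism at all points off `S`; in particular
`M - S` and `N - f(S)` are diffeomorphic. The isotopy is smooth with derivatives of corank at most
one off `S`, its graphs lie in a given neighbourhood of the graph of `f`, and it is constant
outside a given open set which contains the critical points off `S`.

For `S` a point: a homeomorphism which is smooth of corank at most one off a point is isotopic to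
a homeomorphism which is a diffeomorphism off that point, so that `M` and `N` differ at most by a
homotopy 4-sphere. For `S` empty: a smooth homeomorphism of corank at most one between (open)
manifolds is isotopic to a diffeomorphism.

The method: cover `M - S` by a locally finite, countable family of boxes, in each of which `m`
linear coordinates of `f` are part of a chart and `f` is strictly monotone along their fibres;
mollify the remaining coordinate in the boxes one after the other, with control of the `C^1`
distance in all other boxes, and let the isotopy be the infinite composition of the segments in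
the charts; near `S` the whole process is so small that it extends by `f`.
-/

set_option autoImplicit false

open Set Filter Topology Function
open scoped Manifold ContDiff

noncomputable section

namespace Pool.Agent.Results.MP_cb9bff_gt.CorankOneOffClosedSet

/-- the linear map `L` has rank at least `m`: composed with some linear map it is onto `ℝ^m` -/
def RankAtLeast (m : ℕ) {n : ℕ}
    (L : EuclideanSpace ℝ (Fin n) →L[ℝ] EuclideanSpace ℝ (Fin n)) : Prop :=
  ∃ P : EuclideanSpace ℝ (Fin n) →L[ℝ] EuclideanSpace ℝ (Fin m), Surjective (fun v => P (L v))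

section defs

variable (n : ℕ) {M N : Type} [TopologicalSpace M] [ChartedSpace (EuclideanSpace ℝ (Fin n)) M]
  [TopologicalSpace N] [ChartedSpace (EuclideanSpace ℝ (Fin n)) N]

/-- the derivative of `f` at `x` has rank at least `m` -/
def RankAt (m : ℕ) (f : M → N) (x : M) : Prop :=
  RankAtLeast m (mfderiv (𝓡 n) (𝓡 n) f x)

/-- `f` is smooth near `x` -/
def SmoothAt (f : M → N) (x : M) : Prop := ContMDiffAt (𝓡 n) (𝓡 n) ∞ f x

/-- `K : ℝ × M → N` is smooth near `(t, x)` -/
def SmoothFamilyAt (K : ℝ × M → N) (t : ℝ) (x : M) : Prop :=
  ContMDiffAt ((𝓘(ℝ, ℝ)).prod (𝓡 n)) (𝓡 n) ∞ K (t, x)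

/-- `f` is a local diffeomorphism at `x` -/
def LocDiff (f : M → N) (x : M) : Prop := IsLocalDiffeomorphAt (𝓡 n) (𝓡 n) ∞ f x

end defs

section isotopy

variable (m : ℕ) {M N : Type} [TopologicalSpace M]
  [ChartedSpace (EuclideanSpace ℝ (Fin (m + 1))) M] [TopologicalSpace N]
  [ChartedSpace (EuclideanSpace ℝ (Fin (m + 1))) N]

/-- `K` is an isotopy of homeomorphisms which starts at `f`, has its graphs in `O`, is equal to `f`
on `S` and outside `W`, and is smooth with derivatives (in the direction of `M`) of rank at least
`m` at all points off `S` -/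
structure Isotopy (f : M → N) (S W : Set M) (O : Set (M × N)) (K : ℝ × M → N) : Prop where
  cont : Continuous K
  homeo : ∀ t, IsHomeomorph fun x => K (t, x)
  start : ∀ x, K (0, x) = f x
  graph : ∀ t x, (x, K (t, x)) ∈ O
  rel : ∀ t x, (x ∈ S ∨ x ∉ W) → K (t, x) = f x
  smooth : ∀ t x, x ∉ S → SmoothFamilyAt (m + 1) K t x
  corank : ∀ t x, x ∉ S → RankAt (m + 1) m (fun y => K (t, y)) x

end isotopy

theorem RankAtLeast.le {m n : ℕ}
    {L : EuclideanSpace ℝ (Fin n) →L[ℝ] EuclideanSpace ℝ (Fin n)} (h : RankAtLeast m L) :
    m ≤ Module.finrank ℝ (LinearMap.range L.toLinearMap) := by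
  obtain ⟨P, hP⟩ := h
  have h4 : Surjective (P.toLinearMap ∘ₗ (LinearMap.range L.toLinearMap).subtype) := by
    intro w
    obtain ⟨v, hv⟩ := hP w
    exact ⟨⟨_, LinearMap.mem_range_self _ v⟩, hv⟩
  have h5 := LinearMap.finrank_le_finrank_of_surjective h4
  rwa [finrank_euclideanSpace, Fintype.card_fin] at h5

theorem RankAtLeast.of_le {m : ℕ}
    {L : EuclideanSpace ℝ (Fin (m + 1)) →L[ℝ] EuclideanSpace ℝ (Fin (m + 1))}
    (h : m ≤ Module.finrank ℝ (LinearMap.range L.toLinearMap)) : RankAtLeast m L := by
  obtain ⟨P, hP⟩ := Pool.Agent.Y170.NA.exists_proj (m := m) (LinearMap.range L.toLinearMap) h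
  refine ⟨P, fun y => ?_⟩
  obtain ⟨w, ⟨v, rfl⟩, hw⟩ := hP y
  exact ⟨v, hw⟩

/-- Let `f : M → N` be a homeomorphism of smooth manifolds of dimension `m + 1` which off the
closed set `S` is smooth with derivatives of rank at least `m`. Then `f` is isotopic relative to
`S` (and to the complement of `W`, with graphs in `O`) to a homeomorphism which is a local
diffeomorphism at all points off `S`. -/
theorem result (m : ℕ) (M N : Type) [TopologicalSpace M] [T2Space M] [SigmaCompactSpace M]
    [ChartedSpace (EuclideanSpace ℝ (Fin (m + 1))) M] [IsManifold (𝓡 (m + 1)) ∞ M]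
    [TopologicalSpace N] [ChartedSpace (EuclideanSpace ℝ (Fin (m + 1))) N]
    [IsManifold (𝓡 (m + 1)) ∞ N] (f : M ≃ₜ N) (S : Set M) (hS : IsClosed S)
    (hs : ∀ x, x ∉ S → SmoothAt (m + 1) f x) (hr : ∀ x, x ∉ S → RankAt (m + 1) m f x)
    (W : Set M) (hW : IsOpen W) (hWL : ∀ x, x ∉ W → x ∉ S → LocDiff (m + 1) f x)
    (O : Set (M × N)) (hO : IsOpen O) (hfO : ∀ x, (x, f x) ∈ O) :
    ∃ K : ℝ × M → N, Isotopy m f S W O K ∧ ∀ x, x ∉ S → LocDiff (m + 1) (fun y => K (1, y)) x := by
  obtain ⟨K, k1, k2, k3, k4, k5, -, k7, k8, k9⟩ := Pool.Agent.V1127.Iso.off_closed f S hS hs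
    (fun x hx => (hr x hx).le) W hW hWL O hO hfO
  refine ⟨K, ⟨k1, fun t => ?_, k5 0 le_rfl, k3, k4, k7, fun t x hx => RankAtLeast.of_le
    (k8 t x hx)⟩, k9⟩
  exact Pool.Agent.V1127.Iso.isHomeomorph_of_bijective (n := m + 1)
    (k1.comp (continuous_const.prodMk continuous_id)) (k2 t)

end Pool.Agent.Results.MP_cb9bff_gt.CorankOneOffClosedSet
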