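import Pool.Agent.V1127.Iso.Mix

/-!
# MP_cb9bff_gt, Q2: homeomorphisms which near each point are smooth of corank at most one, or have
# such an inverse

Q2 asks for the diffeomorphism classification of the smooth 4-manifolds with a given intersection
form. By Freedman two such manifolds are homeomorphic, so the question is when a homeomorphism
`f : M → N` can be improved to a diffeomorphism. The theorem (`m = 3`; all dimensions `m + 1`, also
noncompact manifolds, relative to a closed set `S` at which nothing is assumed): suppose that near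
each point `x` (off `S`) the homeomorphism `f` is smooth with derivatives of rank at least `m`, or
its inverse is smooth with derivatives of rank at least `m` near `f x`. So `f` may look like
`t ↦ t³` at some points and like `t ↦ t^(1/3)` at others, in one direction of the manifold; neither
`f` nor its inverse need be differentiable. Then `f` is isotopic, relative to `S`, through
homeomorphisms with graphs in a given neighbourhood of the graph of `f`, to a homeomorphism which
is a local diffeomorphism at all points off `S`. For `S` empty it is a diffeomorphism.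
-/

set_option autoImplicit false

open Set Filter Topology Function
open scoped Manifold ContDiff

noncomputable section

namespace Pool.Agent.Results.MP_cb9bff_gt.MixedCorankOne

/-- the linear map `L` has rank at least `m`: composed with some linear map it is onto `ℝ^m` -/
def RankAtLeast (m : ℕ) {n : ℕ}
    (L : EuclideanSpace ℝ (Fin n) →L[ℝ] EuclideanSpace ℝ (Fin n)) : Prop :=
  ∃ P : EuclideanSpace ℝ (Fin n) →L[ℝ] EuclideanSpace ℝ (Fin m), Surjective (fun v => P (L v))

section defs

variable (n : ℕ) {M N : Type} [TopologicalSpace M] [ChartedSpace (EuclideanSpace ℝ (Fin n)) M]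
  [TopologicalSpace N] [ChartedSpace (EuclideanSpace ℝ (Fin n)) N]

/-- `f` is smooth, with derivatives of rank at least `m`, at all points near `x` -/
def SmoothOfRankNear (m : ℕ) (f : M → N) (x : M) : Prop :=
  ∀ᶠ y in 𝓝 x, ContMDiffAt (𝓡 n) (𝓡 n) ∞ f y ∧ RankAtLeast m (mfderiv (𝓡 n) (𝓡 n) f y)

/-- `f` is a local diffeomorphism at `x` -/
def LocDiff (f : M → N) (x : M) : Prop := IsLocalDiffeomorphAt (𝓡 n) (𝓡 n) ∞ f x

end defs

/-- `K` is an isotopy of homeomorphisms which starts at `f`, has its graphs in `O` and is equal to
`f` on `S` and outside `W` -/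
structure Isotopy {M N : Type} [TopologicalSpace M] [TopologicalSpace N] (f : M → N) (S W : Set M)
    (O : Set (M × N)) (K : ℝ × M → N) : Prop where
  cont : Continuous K
  homeo : ∀ t, IsHomeomorph fun x => K (t, x)
  start : ∀ x, K (0, x) = f x
  graph : ∀ t x, (x, K (t, x)) ∈ O
  rel : ∀ t x, (x ∈ S ∨ x ∉ W) → K (t, x) = f x

theorem RankAtLeast.le {m n : ℕ}
    {L : EuclideanSpace ℝ (Fin n) →L[ℝ] EuclideanSpace ℝ (Fin n)} (h : RankAtLeast m L) :
    m ≤ Module.finrank ℝ (LinearMap.range L.toLinearMap) := by
  obtain ⟨P, hP⟩ := h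
  have h4 : Surjective (P.toLinearMap ∘ₗ (LinearMap.range L.toLinearMap).subtype) := by
    intro w
    obtain ⟨v, hv⟩ := hP w
    exact ⟨⟨_, LinearMap.mem_range_self _ v⟩, hv⟩
  have h5 := LinearMap.finrank_le_finrank_of_surjective h4
  rwa [finrank_euclideanSpace, Fintype.card_fin] at h5

/-- Let `f : M → N` be a homeomorphism of smooth manifolds of dimension `m + 1` such that off the
closed set `S`, near each point `f` is smooth with derivatives of rank at least `m` or its inverse
is smooth with derivatives of rank at least `m` near the image point. Then `f` is isotopic,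
relative to `S` (and to the complement of `W`, with graphs in `O`), to a homeomorphism which is a
local diffeomorphism at all points off `S`. -/
theorem result (m : ℕ) (M N : Type) [TopologicalSpace M] [T2Space M] [SigmaCompactSpace M]
    [ChartedSpace (EuclideanSpace ℝ (Fin (m + 1))) M] [IsManifold (𝓡 (m + 1)) ∞ M]
    [TopologicalSpace N] [ChartedSpace (EuclideanSpace ℝ (Fin (m + 1))) N]
    [IsManifold (𝓡 (m + 1)) ∞ N] (f : M ≃ₜ N) (S : Set M) (hS : IsClosed S)
    (h : ∀ x, x ∉ S → SmoothOfRankNear (m + 1) m f x ∨ SmoothOfRankNear (m + 1) m f.symm (f x))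
    (W : Set M) (hW : IsOpen W) (hWL : ∀ x, x ∉ W → x ∉ S → LocDiff (m + 1) f x)
    (O : Set (M × N)) (hO : IsOpen O) (hfO : ∀ x, (x, f x) ∈ O) :
    ∃ K : ℝ × M → N, Isotopy f S W O K ∧ ∀ x, x ∉ S → LocDiff (m + 1) (fun y => K (1, y)) x := by
  obtain ⟨K, k1, k2, k3, k4, k5, k6⟩ := Pool.Agent.V1127.Iso.mixed (m := m) f S hS
    (fun x hx => (h x hx).imp (fun h1 => Filter.Eventually.mono h1 fun y hy => ⟨hy.1, hy.2.le⟩)
      (fun h1 => Filter.Eventually.mono h1 fun y hy => ⟨hy.1, hy.2.le⟩))
    W hW hWL O hO hfO
  exact ⟨K, ⟨k1, fun t => Pool.Agent.V1127.Iso.isHomeomorph_of_bijective (n := m + 1)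
    (k1.comp (continuous_const.prodMk continuous_id)) (k2 t), k5, k3, k4⟩, k6⟩

end Pool.Agent.Results.MP_cb9bff_gt.MixedCorankOne
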